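import Pool.Agent.W186.SZ.Spec
import Pool.Agent.W186.LH.Bwz

set_option autoImplicit false

/-!
# Shifted sums: few zeros from upper bounds
-/

namespace Pool.Agent.W45.SZ

open Complex Filter Topology MeasureTheory Set
open Pool.Agent.H24R2.JP (XX HH Om)
open Pool.Agent.W186.HZ
open Pool.Agent.W186.LH (ord_tr jc)
open Pool.Agent.W186.SX (Up BB BB_base D_refl far fwd_high Om_nn)
open Pool.Agent.W186.SZ

lemma DD_BB (c : ℂ) (h : ℝ) (z : ℂ) :
    DD c h z = BB (fun _ : Fin 1 => c) (fun _ => 2 * h) (z + h) := by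
  unfold DD BB
  simp only [Finset.univ_unique, Finset.sum_singleton]
  congr 3
  push_cast
  ring

lemma DD_diff (c : ℂ) (h : ℝ) : Differentiable ℂ (DD c h) := by
  have hdx : Differentiable ℂ XX := Pool.Agent.H24R2.JP.B1h.XX_diff
  exact (hdx.comp (differentiable_id.add_const _)).add
    ((hdx.comp (differentiable_id.sub_const _)).const_mul _)

lemma DD_refl {c : ℂ} (hc : ‖c‖ = 1) (h : ℝ) (z : ℂ) :
    ‖DD c h (-(starRingEnd ℂ) z)‖ = ‖DD c h z‖ := by
  unfold DD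
  rw [D_refl c hc, norm_mul, hc, one_mul, Complex.norm_conj]

lemma DD_abs {c : ℂ} (hc : ‖c‖ = 1) (h : ℝ) {s : ℝ} (hs : s = 1 ∨ s = -1) (T : ℝ) (u : ℂ) :
    ‖DD c h (I * T + s * u)‖ = ‖DD c h (I * T + ((u.re : ℂ) + I * (s * u.im : ℝ)))‖ := by
  rcases hs with rfl | rfl
  · congr 2
    apply Complex.ext <;> simp
  · rw [← DD_refl hc h (I * T + ((u.re : ℂ) + I * ((-1) * u.im : ℝ)))]
    congr 2
    apply Complex.ext
    · simp
    · simp
      ring

/-- the zeros are near the line -/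
lemma zre {c : ℂ} (hc : ‖c‖ = 1) {h : ℝ} (h0 : 0 < h) (h1 : h ≤ 1 / 2) :
    ∃ T0 : ℝ, ∀ z : ℂ, T0 ≤ z.im → DD c h z = 0 → |z.re| ≤ 1 := by
  obtain ⟨R0, hR0, hf⟩ := far (2 * h) (1 / 2) (by linarith) (by linarith) (by norm_num)
  obtain ⟨T0, -, hT⟩ := fwd_high (y := 1 / 2) (by norm_num) le_rfl ct_half (fun _ : Fin 1 => c)
    (fun _ => 2 * h) (γ := 2 * h) (by linarith) (by linarith) (fun _ => le_rfl)
    (fun _ => by linarith) (1 / 2) R0 (by norm_num) (by norm_num) (by linarith)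
  have hpos : ∀ z : ℂ, 1 < z.re → T0 ≤ z.im → DD c h z ≠ 0 := by
    intro z hz hz2 hD
    have e1 : (z + (h : ℂ)).re = z.re + h := by simp
    have e2 : (z + (h : ℂ)).im = z.im := by simp
    rcases le_or_gt (z.re + h) R0 with h3 | h3
    · refine hT (z + h) (by rw [e1]; linarith) (by rw [e1]; exact h3) (by rw [e2]; exact hz2) ?_
      rw [← DD_BB]
      exact hD
    · obtain ⟨a1, a2⟩ := hf (z + h) (by rw [e1]; exact h3.le)
      have e : z + (h : ℂ) - ((2 * h : ℝ) : ℂ) = z - h := by push_cast; ring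
      rw [e] at a2
      have h4 : XX (z + h) = -(c * XX (z - h)) := by
        unfold DD at hD
        linear_combination hD
      have h5 : ‖XX (z + h)‖ = ‖XX (z - h)‖ := by
        rw [h4, norm_neg, norm_mul, hc, one_mul]
      have h6 := norm_pos_iff.2 a1
      linarith
  refine ⟨T0, fun z hz hD => ?_⟩
  rw [abs_le]
  constructor
  · by_contra h3
    push Not at h3
    refine hpos (-(starRingEnd ℂ) z) (by simp; linarith) (by simpa using hz) ?_
    rw [← norm_eq_zero, DD_refl hc, hD, norm_zero]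
  · by_contra h3
    push Not at h3
    exact hpos z h3 hz hD

/-- the normalised function -/
noncomputable def gN (c : ℂ) (h T s : ℝ) (u : ℂ) : ℂ :=
  DD c h (s * u + I * T) * (cexp (-(Om T : ℂ) * (u + h)) * (((‖HH (I * T)‖)⁻¹ : ℝ) : ℂ))

lemma gN_diff (c : ℂ) (h T s : ℝ) : Differentiable ℂ (gN c h T s) := by
  unfold gN
  have h2 : Differentiable ℂ fun u : ℂ => DD c h (s * u + I * T) :=
    (DD_diff c h).comp (by fun_prop)
  exact h2.mul (by fun_prop)

lemma gN_norm {c : ℂ} (hc : ‖c‖ = 1) (h : ℝ) {s : ℝ} (hs : s = 1 ∨ s = -1) {T : ℝ}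
    (hH : 0 < ‖HH (I * T)‖) (u : ℂ) : ‖gN c h T s u‖ =
      ‖DD c h (I * T + ((u.re : ℂ) + I * (s * u.im : ℝ)))‖ *
        (Real.exp (-(Om T * (u.re + h))) * (‖HH (I * T)‖)⁻¹) := by
  unfold gN
  rw [norm_mul, norm_mul, Complex.norm_exp, Complex.norm_real, Real.norm_eq_abs,
    abs_of_pos (inv_pos.2 hH), add_comm ((s : ℂ) * u), DD_abs hc h hs]
  congr 3
  simp

lemma gN_ord (c : ℂ) (h : ℝ) {s : ℝ} (hs : s = 1 ∨ s = -1) {T : ℝ} (hH : 0 < ‖HH (I * T)‖)
    (hne : ∃ u, DD c h u ≠ 0) (u : ℂ) :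
    analyticOrderNatAt (gN c h T s) u = analyticOrderNatAt (DD c h) (s * u + I * T) := by
  have hs0 : (s : ℂ) ≠ 0 := by
    rcases hs with rfl | rfl <;> simp
  have hc0 : (((‖HH (I * T)‖)⁻¹ : ℝ) : ℂ) ≠ 0 := by
    rw [Complex.ofReal_ne_zero]
    exact (inv_pos.2 hH).ne'
  exact ord_tr (G := DD c h)
    (E := fun u => cexp (-(Om T : ℂ) * (u + h)) * (((‖HH (I * T)‖)⁻¹ : ℝ) : ℂ))
    (DD_diff c h) hne hs0 (b := I * T) (by fun_prop)
    (fun u => mul_ne_zero (Complex.exp_ne_zero _) hc0) u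

lemma gN_zero (c : ℂ) (h s : ℝ) {T : ℝ} (hH : 0 < ‖HH (I * T)‖) (u : ℂ)
    (hu : DD c h (s * u + I * T) ≠ 0) : gN c h T s u ≠ 0 := by
  unfold gN
  refine mul_ne_zero hu (mul_ne_zero (Complex.exp_ne_zero _) ?_)
  rw [Complex.ofReal_ne_zero]
  exact (inv_pos.2 hH).ne'

/-- the bounds for the normalised function -/
lemma gN_bd {c : ℂ} {h : ℝ} (hc : ‖c‖ = 1) (h0 : 0 < h) (h1 : h ≤ 1 / 2)
    (hU : ∀ ε R : ℝ, 0 < ε → 1 ≤ R → Up (fun r => max r h) ε R) (η : ℝ) (hη : 0 < η) :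
    ∃ T0 : ℝ, 410 ≤ T0 ∧ ∀ T s : ℝ, T0 ≤ T → (s = 1 ∨ s = -1) → ∀ u : ℂ, 0 ≤ u.re →
      u.re ≤ 10 → |u.im| ≤ 10 → ‖gN c h T s u‖ ≤ Real.exp (2 * η * Om T) ∧
      (3 / 2 ≤ u.re → Real.exp (-(η * Om T)) ≤ ‖gN c h T s u‖) := by
  obtain ⟨T1, hT1, hu⟩ := hU η 11 hη (by norm_num)
  obtain ⟨T2, hT2, hb⟩ := BB_base (fun _ : Fin 1 => c) (fun _ => 2 * h) (γ := 2 * h) (by linarith)
    (by linarith) (fun _ => le_rfl) (fun _ => by linarith) η hη
  obtain ⟨T3, hT3, hO⟩ := Om_large (1 / η)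
  refine ⟨max T1 (max T2 T3), hT1.trans (le_max_left _ _), ?_⟩
  intro T s hT hs u u1 u2 u3
  have g1 : T1 ≤ T := (le_max_left _ _).trans hT
  have g2 : T2 ≤ T := ((le_max_left _ _).trans (le_max_right _ _)).trans hT
  have g3 : T3 ≤ T := ((le_max_right _ _).trans (le_max_right _ _)).trans hT
  have hO1 := hO T g3
  rw [div_le_iff₀ hη] at hO1
  have hTp : 0 < T := by linarith
  have hOp : 0 ≤ Om T := Om_nn (by linarith)
  have him : 0 < (I * (T : ℂ)).im := by simpa using hTp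
  have hHp : 0 < ‖HH (I * T)‖ := norm_pos_iff.2 (Pool.Agent.H24R2.JP.StirAux.HH_ne him)
  obtain ⟨v, hv⟩ : ∃ v : ℂ, v = (u.re : ℂ) + I * (s * u.im : ℝ) := ⟨_, rfl⟩
  have v1 : v.re = u.re := by rw [hv]; simp
  have v2 : v.im = s * u.im := by rw [hv]; simp
  have v3 : |v.im| ≤ 10 := by
    rw [v2]
    rcases hs with rfl | rfl
    · rwa [one_mul]
    · rwa [neg_one_mul, abs_neg]
  have hcan : ∀ A B : ℝ, Real.exp A * ‖HH (I * T)‖ * (Real.exp B * (‖HH (I * T)‖)⁻¹) =
      Real.exp (A + B) := by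
    intro A B
    rw [Real.exp_add]
    field_simp
  have hgn := gN_norm hc h hs hHp u
  rw [← hv] at hgn
  rw [hgn]
  refine ⟨?_, fun hu3 => ?_⟩
  · have a1 := hu T (v + h) g1 (by simp [v1]; rw [abs_le]; constructor <;> linarith) (by simpa using v3)
    have a2 := hu T (v - h) g1 (by simp [v1]; rw [abs_le]; constructor <;> linarith) (by simpa using v3)
    have e1 : (v + (h : ℂ)).re = u.re + h := by simp [v1]
    have e2 : (v - (h : ℂ)).re = u.re - h := by simp [v1]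
    simp only [e1] at a1
    simp only [e2] at a2
    have m1 : max |u.re + h| h ≤ u.re + h :=
      max_le (by rw [abs_of_nonneg (by linarith)]) (by linarith)
    have m2 : max |u.re - h| h ≤ u.re + h :=
      max_le (by rw [abs_le]; constructor <;> linarith) (by linarith)
    have hm : ∀ a b : ℝ, a ≤ b → Real.exp (Om T * a) * ‖HH (I * T)‖ ≤
        Real.exp (Om T * b) * ‖HH (I * T)‖ := by
      intro a b hab
      have := Real.exp_le_exp.2 (mul_le_mul_of_nonneg_left hab hOp)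
      gcongr
    have b1 := a1.trans (hm _ (u.re + h + η) (by linarith))
    have b2 := a2.trans (hm _ (u.re + h + η) (by linarith))
    have b3 : ‖DD c h (I * T + v)‖ ≤ 2 * (Real.exp (Om T * (u.re + h + η)) * ‖HH (I * T)‖) := by
      unfold DD
      refine (norm_add_le _ _).trans ?_
      rw [norm_mul, hc, one_mul, add_assoc, add_sub_assoc]
      linarith
    calc _ ≤ 2 * (Real.exp (Om T * (u.re + h + η)) * ‖HH (I * T)‖) *
          (Real.exp (-(Om T * (u.re + h))) * (‖HH (I * T)‖)⁻¹) :=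
          mul_le_mul_of_nonneg_right b3 (by positivity)
      _ = 2 * Real.exp (Om T * (u.re + h + η) + -(Om T * (u.re + h))) := by
          rw [mul_assoc, hcan]
      _ = 2 * Real.exp (η * Om T) := by
          congr 2
          ring
      _ ≤ Real.exp (η * Om T) * Real.exp (η * Om T) := by
          apply mul_le_mul_of_nonneg_right _ (Real.exp_pos _).le
          have := Real.add_one_le_exp (η * Om T)
          linarith
      _ = _ := by
          rw [← Real.exp_add]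
          congr 1
          ring
  · have a1 := ((hb T (v + h) g2 (by simp [v1]; linarith) (by simp [v1]; linarith)
      (by simpa using v3)).2 (by simp [v1]; linarith)).1
    have e1 : (v + (h : ℂ)).re = u.re + h := by simp [v1]
    rw [e1, ← add_assoc, ← DD_BB] at a1
    calc Real.exp (-(η * Om T)) = Real.exp (Om T * (u.re + h - η) + -(Om T * (u.re + h))) := by
          congr 1
          ring
      _ = Real.exp (Om T * (u.re + h - η)) * ‖HH (I * T)‖ *
          (Real.exp (-(Om T * (u.re + h))) * (‖HH (I * T)‖)⁻¹) := (hcan _ _).symm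
      _ ≤ _ := mul_le_mul_of_nonneg_right a1 (by positivity)

lemma cnt_cell {c : ℂ} {h : ℝ} (hc : ‖c‖ = 1) (h0 : 0 < h) (h1 : h ≤ 1 / 2)
    (hU : ∀ ε R : ℝ, 0 < ε → 1 ≤ R → Up (fun r => max r h) ε R) (δ η : ℝ) (hδ : 0 < δ)
    (hδ1 : δ ≤ 1) (hη : 0 < η) : ∃ T0 : ℝ, ∀ T s v : ℝ, T0 ≤ T → (s = 1 ∨ s = -1) → |v| ≤ 1 →
      ∀ S : Finset ℂ, (∀ w ∈ S, DD c h w = 0 ∧ δ ≤ s * w.re ∧ |w.im - T - v| ≤ δ) →
      (∑ w ∈ S, (analyticOrderNatAt (DD c h) w : ℝ)) * Real.log (5 / (5 - δ / 2)) ≤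
        3 * η * Om T := by
  obtain ⟨T1, hT1, hb⟩ := gN_bd hc h0 h1 hU η hη
  obtain ⟨T2, hz⟩ := zre hc h0 h1
  refine ⟨max T1 (T2 + 2), ?_⟩
  intro T s v hT hs hv S hS
  have g1 : T1 ≤ T := (le_max_left _ _).trans hT
  have g2 : T2 + 2 ≤ T := (le_max_right _ _).trans hT
  have hTp : 0 < T := by linarith
  have him : 0 < (I * (T : ℂ)).im := by simpa using hTp
  have hHp : 0 < ‖HH (I * T)‖ := norm_pos_iff.2 (Pool.Agent.H24R2.JP.StirAux.HH_ne him)
  have hss : s * s = 1 := by rcases hs with rfl | rfl <;> norm_num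
  have hssc : (s : ℂ) * s = 1 := by exact_mod_cast hss
  have hsv : |s * v| ≤ 1 := by
    rcases hs with rfl | rfl
    · rwa [one_mul]
    · rwa [neg_one_mul, abs_neg]
  obtain ⟨p, hp⟩ : ∃ p : ℂ, p = (5 : ℂ) + I * (s * v : ℝ) := ⟨_, rfl⟩
  have p1 : p.re = 5 := by rw [hp]; simp
  have p2 : p.im = s * v := by rw [hp]; simp
  have hsv' := abs_le.1 hsv
  have hmem : ∀ u : ℂ, ‖u - p‖ ≤ 5 → 0 ≤ u.re ∧ u.re ≤ 10 ∧ |u.im| ≤ 10 := by
    intro u hu
    have a1 := (Complex.abs_re_le_norm (u - p)).trans hu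
    have a2 := (Complex.abs_im_le_norm (u - p)).trans hu
    rw [Complex.sub_re, p1, abs_le] at a1
    rw [Complex.sub_im, p2, abs_le] at a2
    refine ⟨by linarith, by linarith, ?_⟩
    rw [abs_le]
    constructor <;> linarith
  have hM : ∀ u ∈ Metric.sphere p 5, ‖gN c h T s u‖ ≤ Real.exp (2 * η * Om T) := by
    intro u hu
    rw [Metric.mem_sphere, dist_eq_norm] at hu
    obtain ⟨a1, a2, a3⟩ := hmem u hu.le
    exact (hb T s g1 hs u a1 a2 a3).1
  have h5 : Real.exp (-(η * Om T)) ≤ ‖gN c h T s p‖ :=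
    (hb T s g1 hs p (by rw [p1]; norm_num) (by rw [p1]; norm_num) (by rw [p2]; linarith)).2
      (by rw [p1]; norm_num)
  have h50 : gN c h T s p ≠ 0 := by
    rw [← norm_pos_iff]
    exact lt_of_lt_of_le (Real.exp_pos _) h5
  have hne : ∃ u, DD c h u ≠ 0 := by
    refine ⟨s * p + I * T, fun h0 => h50 ?_⟩
    unfold gN
    rw [h0, zero_mul]
  classical
  have hinj : Set.InjOn (fun w : ℂ => (s : ℂ) * (w - I * T)) (S : Set ℂ) := by
    intro a _ b _ hab
    simp only at hab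
    have h3 := congrArg (fun q => (s : ℂ) * q) hab
    simp only [← mul_assoc, hssc, one_mul] at h3
    linear_combination h3
  have hjc := jc (gN_diff c h T s) (c := p) (r := 5 - δ / 2) (R := 5) (by linarith) (by linarith)
    hM h50 (S.image fun w => (s : ℂ) * (w - I * T)) (by
      intro z hz'
      rw [Finset.mem_image] at hz'
      obtain ⟨w, hw, rfl⟩ := hz'
      obtain ⟨w0, w1, w2⟩ := hS w hw
      have hv' := abs_le.1 hv
      have w2' := abs_le.1 w2
      have w3 := hz w (by linarith) w0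
      have w4 : s * w.re ≤ 1 := by
        rcases hs with rfl | rfl
        · rw [one_mul]; exact (le_abs_self _).trans w3
        · rw [neg_one_mul]; exact (neg_le_abs _).trans w3
      rw [Metric.mem_closedBall, dist_eq_norm]
      have e1 : ((s : ℂ) * (w - I * T) - p).re = s * w.re - 5 := by rw [Complex.sub_re, p1]; simp
      have e2 : ((s : ℂ) * (w - I * T) - p).im = s * (w.im - T - v) := by
        rw [Complex.sub_im, p2]
        simp
        ring
      have hsq : ‖(s : ℂ) * (w - I * T) - p‖ ^ 2 ≤ (5 - δ / 2) ^ 2 := by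
        rw [Complex.sq_norm, Complex.normSq_apply, e1, e2]
        have a1 : s * (w.im - T - v) * (s * (w.im - T - v)) = (w.im - T - v) ^ 2 := by
          calc s * (w.im - T - v) * (s * (w.im - T - v)) = (s * s) * (w.im - T - v) ^ 2 := by ring
            _ = _ := by rw [hss, one_mul]
        have a2 : (w.im - T - v) ^ 2 ≤ δ ^ 2 := by
          rw [← sq_abs]
          exact pow_le_pow_left₀ (abs_nonneg _) w2 2
        have a3 : (s * w.re - 5) * (s * w.re - 5) ≤ (5 - δ) * (5 - δ) := by nlinarith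
        rw [a1]
        nlinarith
      exact (sq_le_sq₀ (norm_nonneg _) (by linarith)).1 hsq)
  rw [Finset.sum_image hinj] at hjc
  have hsum : ∑ w ∈ S, analyticOrderNatAt (gN c h T s) ((s : ℂ) * (w - I * T)) =
      ∑ w ∈ S, analyticOrderNatAt (DD c h) w := by
    refine Finset.sum_congr rfl fun w _ => ?_
    rw [gN_ord c h hs hHp hne]
    congr 1
    rw [← mul_assoc, hssc]
    ring
  rw [hsum] at hjc
  obtain ⟨N, hN⟩ : ∃ N : ℕ, N = ∑ w ∈ S, analyticOrderNatAt (DD c h) w := ⟨_, rfl⟩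
  rw [← hN] at hjc
  have hNc : (∑ w ∈ S, (analyticOrderNatAt (DD c h) w : ℝ)) = N := by rw [hN]; push_cast; rfl
  rw [hNc]
  obtain ⟨q, hq⟩ : ∃ q : ℝ, q = Real.log (5 / (5 - δ / 2)) := ⟨_, rfl⟩
  have hqe : 5 / (5 - δ / 2) = Real.exp q := by
    rw [hq, Real.exp_log]
    apply div_pos (by norm_num)
    linarith
  rw [← hq]
  rw [hqe, ← Real.exp_nat_mul] at hjc
  have h6 : Real.exp (N * q) * Real.exp (-(η * Om T)) ≤ Real.exp (2 * η * Om T) :=
    (mul_le_mul_of_nonneg_left h5 (Real.exp_pos _).le).trans hjc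
  rw [← Real.exp_add, Real.exp_le_exp] at h6
  linarith

theorem cnt : S_CNT := by
  intro c h hc h0 h1 hU δ' ε hδ' hε
  obtain ⟨δ, hδd⟩ : ∃ δ : ℝ, δ = min δ' 1 := ⟨_, rfl⟩
  have hδ : 0 < δ := by rw [hδd]; exact lt_min hδ' one_pos
  have hδ1 : δ ≤ 1 := by rw [hδd]; exact min_le_right _ _
  have hδ2 : δ ≤ δ' := by rw [hδd]; exact min_le_left _ _
  obtain ⟨q, hq⟩ : ∃ q : ℝ, q = Real.log (5 / (5 - δ / 2)) := ⟨_, rfl⟩
  have hq0 : 0 < q := by
    rw [hq]
    apply Real.log_pos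
    rw [lt_div_iff₀ (by linarith)]
    linarith
  obtain ⟨n, hn⟩ : ∃ n : ℕ, n = ⌊2 / δ⌋₊ + 1 := ⟨_, rfl⟩
  have hn0 : 0 < (n : ℝ) := by rw [hn]; push_cast; positivity
  obtain ⟨η, hη⟩ : ∃ η : ℝ, η = ε * q / (6 * n) := ⟨_, rfl⟩
  have hη0 : 0 < η := by rw [hη]; positivity
  obtain ⟨T0, hc0⟩ := cnt_cell hc h0 h1 hU δ η hδ hδ1 hη0
  refine ⟨T0, ?_⟩
  intro T hT S hS
  classical
  -- the cells
  obtain ⟨J, hJ⟩ : ∃ J : Finset (ℕ × Bool), J = (Finset.range n) ×ˢ (Finset.univ : Finset Bool) :=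
    ⟨_, rfl⟩
  obtain ⟨g, hg⟩ : ∃ g : ℂ → ℕ × Bool, g = fun w => (⌊(w.im - T + 1) / δ⌋₊, decide (0 < w.re)) :=
    ⟨_, rfl⟩
  have hmaps : ∀ w ∈ S, g w ∈ J := by
    intro w hw
    obtain ⟨w0, w1, w2⟩ := hS w hw
    rw [abs_le] at w2
    rw [hJ, hg, Finset.mem_product]
    refine ⟨?_, Finset.mem_univ _⟩
    rw [Finset.mem_range, hn, Nat.lt_add_one_iff]
    apply Nat.floor_le_floor
    apply div_le_div_of_nonneg_right _ hδ.le
    linarith
  rw [← Finset.sum_fiberwise_of_maps_to hmaps]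
  have hcell : ∀ j ∈ J, (∑ w ∈ S with g w = j, (analyticOrderNatAt (DD c h) w : ℝ)) ≤
      ε / (2 * n) * Om T := by
    intro j hj
    rw [hJ, Finset.mem_product, Finset.mem_range] at hj
    obtain ⟨j1, -⟩ := hj
    obtain ⟨v, hv⟩ : ∃ v : ℝ, v = -1 + j.1 * δ := ⟨_, rfl⟩
    have hj2 : (j.1 : ℝ) * δ ≤ 2 := by
      have : j.1 ≤ ⌊2 / δ⌋₊ := by omega
      have h3 : (j.1 : ℝ) ≤ 2 / δ := le_trans (by exact_mod_cast this) (Nat.floor_le (by positivity))
      rwa [le_div_iff₀ hδ] at h3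
    have hj0 : 0 ≤ (j.1 : ℝ) * δ := by positivity
    have hv1 : |v| ≤ 1 := by rw [hv, abs_le]; constructor <;> linarith
    obtain ⟨s, hs⟩ : ∃ s : ℝ, s = if j.2 = true then 1 else -1 := ⟨_, rfl⟩
    have hs' : s = 1 ∨ s = -1 := by
      rw [hs]; split_ifs <;> simp
    have key := hc0 T s v hT hs' hv1 (S.filter fun w => g w = j) (by
      intro w hw
      rw [Finset.mem_filter] at hw
      obtain ⟨hw1, hw2⟩ := hw
      obtain ⟨w0, w1, w2⟩ := hS w hw1
      rw [abs_le] at w2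
      rw [hg] at hw2
      have e1 : ⌊(w.im - T + 1) / δ⌋₊ = j.1 := congrArg Prod.fst hw2
      have e2 : decide (0 < w.re) = j.2 := congrArg Prod.snd hw2
      refine ⟨w0, ?_, ?_⟩
      · rw [hs, ← e2]
        by_cases h3 : 0 < w.re
        · simp only [h3, decide_true, if_true, one_mul]
          rw [abs_of_pos h3] at w1
          linarith
        · simp only [h3, decide_false, Bool.false_eq_true, if_false, neg_one_mul]
          rw [abs_of_nonpos (not_lt.1 h3)] at w1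
          linarith
      · have h3 : 0 ≤ (w.im - T + 1) / δ := div_nonneg (by linarith) hδ.le
        have h4 := Nat.floor_le h3
        have h5 := Nat.lt_floor_add_one ((w.im - T + 1) / δ)
        rw [e1, le_div_iff₀ hδ] at h4
        rw [e1, div_lt_iff₀ hδ] at h5
        rw [hv, abs_le]
        constructor <;> linarith)
    rw [← hq] at key
    have h6 : 3 * η * Om T = ε / (2 * n) * Om T * q := by
      rw [hη]
      field_simp
      ring
    rw [h6] at key
    exact le_of_mul_le_mul_right key hq0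
  refine (Finset.sum_le_sum hcell).trans ?_
  rw [Finset.sum_const, hJ, Finset.card_product, Finset.card_range, Finset.card_univ,
    Fintype.card_bool, nsmul_eq_mul]
  apply le_of_eq
  push_cast
  field_simp

end Pool.Agent.W45.SZ
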